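import Mathlib

set_option autoImplicit false

/-!
# Convergence of solutions of a third-order max-type equation

For every `A > 0`, a positive solution of `x_{n+1} = max {A, x_n, x_{n-1}} / x_{n-2}` which has a
limit is constant.  The sequence is indexed from `0`, i.e. `x 0, x 1, x 2` are the initial values
`x_{-2}, x_{-1}, x_0`.

Proof: `max(1,1/x) max(1,1/y) max(1,1/z) max(A,x,y,z)` is invariant.
-/

namespace Pool.Agent.Results.MP_d408b2_an.NoLimit

open Filter Topology

/-- the invariant -/
noncomputable def inv (A x y z : ℝ) : ℝ :=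
  max 1 (1 / x) * max 1 (1 / y) * max 1 (1 / z) * max (max (max A x) y) z

lemma inv_step {A x y z : ℝ} (hA : 0 < A) (hx : 0 < x) :
    inv A y z (max (max A z) y / x) = inv A x y z := by
  set S := max (max A y) z with hS
  have hS0 : 0 < S := lt_of_lt_of_le hA ((le_max_left _ _).trans (le_max_left _ _))
  have hSS : max (max A z) y = S := by rw [hS, max_assoc, max_comm z y, ← max_assoc]
  unfold inv
  rw [hSS]
  have e1 : max (max (max A y) z) (S / x) = S * max 1 (1 / x) := by
    rw [← hS, mul_max_of_nonneg _ _ hS0.le, mul_one, mul_one_div]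
  have e2 : max (max (max A x) y) z = max S x := by
    rw [hS]
    simp only [max_assoc]
    congr 1
    rw [max_comm x (max y z), max_assoc]
  have e3 : max 1 (1 / (S / x)) * S = max S x := by
    rw [max_mul_of_nonneg _ _ hS0.le, one_mul, one_div_div]
    congr 1
    field_simp
  rw [e1, e2, ← e3]
  ring

lemma inv_one {A x y z : ℝ} (hA : A ≤ 1) (hx : 0 < x) (hy : 0 < y) (hz : 0 < z)
    (h : inv A x y z = 1) : x = 1 := by
  unfold inv at h
  set a := max 1 (1 / x) with ha
  set b := max 1 (1 / y) with hb
  set c := max 1 (1 / z) with hc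
  set M := max (max (max A x) y) z with hM
  have ha1 : 1 ≤ a := le_max_left _ _
  have hb1 : 1 ≤ b := le_max_left _ _
  have hc1 : 1 ≤ c := le_max_left _ _
  have hxM : x ≤ M := (le_max_right _ _).trans ((le_max_left _ _).trans (le_max_left _ _))
  have hyM : y ≤ M := (le_max_right _ _).trans (le_max_left _ _)
  have hM0 : 0 < M := hx.trans_le hxM
  have hax : 1 ≤ a * x := by
    have : 1 / x ≤ a := le_max_right _ _
    rwa [div_le_iff₀ hx] at this
  have hby : 1 ≤ b * y := by
    have : 1 / y ≤ b := le_max_right _ _
    rwa [div_le_iff₀ hy] at this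
  have habc : 1 ≤ a * b * c := one_le_mul_of_one_le_of_one_le (one_le_mul_of_one_le_of_one_le ha1 hb1) hc1
  have hM1 : M ≤ 1 := by
    calc M = 1 * M := (one_mul _).symm
      _ ≤ a * b * c * M := by gcongr
      _ = 1 := h
  have hx1 : x ≤ 1 := hxM.trans hM1
  refine le_antisymm hx1 ?_
  -- a ≤ 1
  have h2 : a ≤ 1 := by
    have h3 : 1 ≤ b * M := hby.trans (by gcongr)
    have h4 : a ≤ a * b * c * M := by
      calc a = a * 1 * 1 := by ring
        _ ≤ a * (b * M) * c := by gcongr
        _ = a * b * c * M := by ring
    rw [h] at h4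
    exact h4
  calc 1 ≤ a * x := hax
    _ ≤ 1 * x := by gcongr
    _ = x := one_mul x

theorem result (A : ℝ) (hA : 0 < A) (x : ℕ → ℝ) (hx : ∀ n, 0 < x n)
    (hrec : ∀ n, x (n + 3) = max (max A (x (n + 2))) (x (n + 1)) / x n)
    (L : ℝ) (hL : Tendsto x atTop (𝓝 L)) : ∀ n, x n = x 0 := by
  have t1 : Tendsto (fun n => x (n + 1)) atTop (𝓝 L) := (tendsto_add_atTop_iff_nat 1).2 hL
  have t2 : Tendsto (fun n => x (n + 2)) atTop (𝓝 L) := (tendsto_add_atTop_iff_nat 2).2 hL
  have t3 : Tendsto (fun n => x (n + 3)) atTop (𝓝 L) := (tendsto_add_atTop_iff_nat 3).2 hL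
  have hmul : ∀ n, x (n + 3) * x n = max (max A (x (n + 2))) (x (n + 1)) := by
    intro n
    rw [hrec n, div_mul_cancel₀ _ (hx n).ne']
  have hLL : L * L = max A L := by
    have h1 := t3.mul hL
    have h2 := (tendsto_const_nhds (x := A)).max t2 |>.max t1
    have h3 := tendsto_nhds_unique (h1.congr hmul) h2
    rw [h3, max_assoc, max_self]
  have hL0 : 0 ≤ L := ge_of_tendsto' hL fun n => (hx n).le
  rcases le_or_gt A 1 with hA1 | hA1
  · -- L = 1
    have hL1 : L = 1 := by
      rcases le_total A L with h | h
      · rw [max_eq_right h] at hLL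
        have h0 : L ≠ 0 := by intro h0; rw [h0] at h; linarith
        exact mul_right_cancel₀ h0 (by rw [hLL, one_mul])
      · rw [max_eq_left h] at hLL
        have h1 : L ≤ 1 := h.trans hA1
        have h2 : L * L ≤ L * 1 := by gcongr
        have h3 : L = A := by linarith
        have h0 : L ≠ 0 := by rw [h3]; exact hA.ne'
        rw [← h3] at hLL
        exact mul_right_cancel₀ h0 (by rw [hLL, one_mul])
    have hI : ∀ n, inv A (x n) (x (n + 1)) (x (n + 2)) = inv A (x 0) (x 1) (x 2) := by
      intro n
      induction n with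
      | zero => rfl
      | succ n ih =>
        rw [← ih, ← inv_step hA (hx n), ← hrec n]
    have hlim : Tendsto (fun n => inv A (x n) (x (n + 1)) (x (n + 2))) atTop (𝓝 (inv A L L L)) := by
      have hne : L ≠ 0 := by rw [hL1]; norm_num
      have i0 : Tendsto (fun n => 1 / x n) atTop (𝓝 (1 / L)) := tendsto_const_nhds.div hL hne
      have i1 : Tendsto (fun n => 1 / x (n + 1)) atTop (𝓝 (1 / L)) := tendsto_const_nhds.div t1 hne
      have i2 : Tendsto (fun n => 1 / x (n + 2)) atTop (𝓝 (1 / L)) := tendsto_const_nhds.div t2 hne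
      unfold inv
      exact (((tendsto_const_nhds.max i0).mul (tendsto_const_nhds.max i1)).mul 
        (tendsto_const_nhds.max i2)).mul (((tendsto_const_nhds.max hL).max t1).max t2)
    have hval : inv A L L L = 1 := by
      rw [hL1]
      unfold inv
      simp [hA1]
    have hconst : inv A (x 0) (x 1) (x 2) = 1 := by
      rw [← hval]
      refine tendsto_nhds_unique (tendsto_const_nhds.congr fun n => (hI n).symm) hlim
    have hall : ∀ n, x n = 1 := by
      intro n
      exact inv_one hA1 (hx n) (hx (n + 1)) (hx (n + 2)) ((hI n).trans hconst)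
    intro n
    rw [hall n, hall 0]
  · -- A > 1
    have hLA : L < A := by
      by_contra hcon
      push Not at hcon
      rw [max_eq_right hcon] at hLL
      have h0 : L ≠ 0 := by intro h0; rw [h0] at hcon; linarith
      have : L = 1 := mul_right_cancel₀ h0 (by rw [hLL, one_mul])
      linarith
    have hL2 : L * L = A := by rw [hLL, max_eq_left hLA.le]
    have hLne : L ≠ 0 := by intro h0; rw [h0] at hL2; linarith
    obtain ⟨N, hN⟩ := eventually_atTop.1 (hL.eventually_lt_const hLA)
    have h3 : ∀ n, N ≤ n → x (n + 3) * x n = A := by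
      intro n hn
      rw [hmul n, max_eq_left (hN (n + 2) (by omega)).le, max_eq_left (hN (n + 1) (by omega)).le]
    have h6 : ∀ n, N ≤ n → x (n + 6) = x n := by
      intro n hn
      have e1 := h3 n hn
      have e2 := h3 (n + 3) (by omega)
      have : x (n + 3) ≠ 0 := (hx _).ne'
      have e3 : x (n + 6) * x (n + 3) = x n * x (n + 3) := by
        rw [show n + 6 = n + 3 + 3 by ring, e2, mul_comm (x n), e1]
      exact mul_right_cancel₀ this e3
    have h6k : ∀ n, N ≤ n → ∀ k, x (n + 6 * k) = x n := by
      intro n hn k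
      induction k with
      | zero => rfl
      | succ k ih =>
        rw [show n + 6 * (k + 1) = (n + 6 * k) + 6 by ring, h6 _ (by omega), ih]
    have hev : ∀ n, N ≤ n → x n = L := by
      intro n hn
      have h1 : Tendsto (fun k : ℕ => x (n + 6 * k)) atTop (𝓝 L) := by
        apply hL.comp
        apply tendsto_atTop_mono (fun k => ?_) tendsto_id
        simp only [id]
        omega
      exact tendsto_nhds_unique (tendsto_const_nhds.congr fun k => (h6k n hn k).symm) h1
    have hback : ∀ j, ∀ n, N ≤ n + j → x n = L := by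
      intro j
      induction j with
      | zero => intro n hn; exact hev n (by omega)
      | succ j ih =>
        intro n hn
        have a1 := ih (n + 1) (by omega)
        have a2 := ih (n + 2) (by omega)
        have a3 := ih (n + 3) (by omega)
        have h1 := hmul n
        rw [a1, a2, a3, max_assoc, max_self, max_eq_left hLA.le, ← hL2] at h1
        exact mul_left_cancel₀ hLne h1
    intro n
    rw [hback N n (by omega), hback N 0 (by omega)]

end Pool.Agent.Results.MP_d408b2_an.NoLimit
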